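import Pool.Agent.K3h99.AF.Transfer

/-!
# Recognising `(AB)^{t/2}`-free hypergraphs is NP-complete for every `t ≥ 6`

`Pool.Agent.K3h99.AF.Recognition t M`: the list `M` of rows is a 0-1 matrix, and the hypergraph
with incidence matrix `M` (vertices are the rows, hyperedges are the columns) has a linear order of
its vertices for which no two hyperedges form an `(AB)^{t/2}`-sequence.  For every fixed `t ≥ 6`
this decision problem is NP-complete. So, unless `P = NP`, no algorithm with running time
polynomial in `|V| + |E|` decides `(AB)^{t/2}`-freeness of hypergraphs on unordered vertex sets for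
these longer alternations. (The case `t = 4`, and possibly `t = 5`, is in the literature.)
-/

set_option autoImplicit false

namespace Pool.Agent.Results.MP_71902e_lc.LongAlternationsNPComplete

open Pool.Agent.NPC Pool.Agent.K3h99.AF

/-- For every `t ≥ 6`, deciding whether the hypergraph with a given incidence matrix is
`(AB)^{t/2}`-free is NP-complete. -/
theorem result (t : ℕ) (ht : 6 ≤ t) : NPHardP (Recognition t) ∧ InNPP (Recognition t) :=
  ⟨(hard_recognition (by omega)).toNPHardP, inNPP_recognition t⟩

end Pool.Agent.Results.MP_71902e_lc.LongAlternationsNPComplete
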